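import Pool.Agent.TMX.Stmts5

set_option autoImplicit false

namespace Pool.Agent.TMX.H42

open Finset
open Pool.Agent.Helper51_Max (I IsMax)
open Pool.Agent.Helper37_EM (var)

/-- two transfers into the same part of the chain -/
theorem dB : DB := by
  intro hLR hLL hVBad hVPl hNC hChB N g M hM y₁ z₁ y₁' r₁ c₁ i₁ j₁ y₂ z₂ y₂' r₂ c₂ i₂ j₂ p p' v
    b₁ b₂ hdis hy₁p hpc₁ hp'y₂ hc₂p' hpv hvp'
  have happ := (hChB N g).1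
  have hone := (hChB N g).2.2.2.2
  -- order facts
  have a1 := b₁.geo.yz
  have a2 := b₁.geo.zz
  have a3 := b₁.geo.rz
  have a4 := b₁.geo.rN
  have a5 := b₁.c1
  have a6 := b₁.c2
  have a7 := b₁.j1
  have a8 := b₁.j2
  have a9 := b₁.j3
  have d1 := b₂.geo.yz
  have d2 := b₂.geo.zz
  have d3 := b₂.geo.rz
  have d4 := b₂.geo.rN
  have d5 := b₂.c1
  have d6 := b₂.c2
  have d7 := b₂.i1
  have d8 := b₂.i2
  have d9 := b₂.i3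
  have hp'N : p' ≤ N := by omega
  have hc₁j₁ : c₁ < j₁ := by omega
  have hj₁i₂ : j₁ < i₂ := by omega
  have hi₂c₂ : i₂ < c₂ := by omega
  rcases Nat.lt_or_ge i₂ v with hv | hv
  · -- the part (p, j₁) gets the number of z₁
    have hV : VG N g p j₁ (M y₁ + M y₁' - M z₁) :=
      hVBad N g M hM y₁ z₁ y₁' r₁ c₁ y₁ y₁' p j₁ ⟨b₁.geo, b₁.top, b₁.c1, b₁.c2, b₁.cy, b₁.cy',
        b₁.cmin, b₁.geo, le_rfl, le_rfl, hpc₁, hc₁j₁.le, by omega, Or.inl rfl, Or.inl rfl⟩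
    have hC := hone p j₁ _ (by omega) hV
    obtain ⟨Q', T, hQ', hT, hTe⟩ := hLL hVBad hVPl hNC hChB N g M hM y₂ z₂ y₂' r₂ c₂ i₂ j₂ j₁ p' v
      b₂ hp'y₂ (by omega) hc₂p' (by omega) (by omega) hvp'
    have h1 : M y₁' < g j₁ := lt_trans b₁.geo.Mz b₁.j4
    refine ⟨g j₁, Q', _, h1.le, hQ', happ _ _ _ _ _ hC hT, ?_⟩
    rw [hTe]
    ring
  · have hV : VG N g i₂ p' (M y₂ + M y₂' - M z₂) :=
      hVBad N g M hM y₂ z₂ y₂' r₂ c₂ y₂ y₂' i₂ p' ⟨b₂.geo, b₂.top, b₂.c1, b₂.c2, b₂.cy, b₂.cy',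
        b₂.cmin, b₂.geo, le_rfl, le_rfl, hi₂c₂.le, hc₂p', hp'N, Or.inl rfl, Or.inl rfl⟩
    have hC := hone i₂ p' _ (by omega) hV
    obtain ⟨Q', T, hQ', hT, hTe⟩ := hLR hVBad hVPl hNC hChB N g M hM y₁ z₁ y₁' r₁ c₁ i₁ j₁ p i₂ v
      b₁ hy₁p hpc₁ (by omega) (by omega) (by omega) hpv hv
    have h1 : M y₂ < g i₂ := lt_trans b₂.geo.My b₂.i4
    refine ⟨Q', g i₂, _, hQ', h1.le, happ _ _ _ _ _ hT hC, ?_⟩
    rw [hTe]
    ring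

end Pool.Agent.TMX.H42
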